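import Pool.Agent.W845.DH.Stm

set_option autoImplicit false
open scoped Classical

namespace Pool.Agent.W803.DH

open Pool.Agent.W845.DH

/-- a reflexive transitive relation containing one step contains the cycles -/
theorem same_of_step {V : Type} [Fintype V] (σ : Equiv.Perm V) (R : V → V → Prop)
    (hrefl : ∀ x, R x x) (htrans : ∀ x y z, R x y → R y z → R x z) (hstep : ∀ x, R x (σ x))
    (x y : V) (h : σ.SameCycle x y) : R x y := by
  obtain ⟨i, _, hi⟩ := h.exists_pow_eq'
  have key : ∀ i : ℕ, R x ((σ ^ i) x) := by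
    intro i
    induction i with
    | zero => exact hrefl x
    | succ i ih =>
      rw [pow_succ']
      exact htrans _ _ _ ih (hstep _)
  rw [← hi]
  exact key i

theorem mem_cls {V : Type} [Fintype V] (τ : Equiv.Perm V) (x y : V) :
    y ∈ cls τ x ↔ τ.SameCycle x y := by
  simp [cls]

theorem cls_eq_iff {V : Type} [Fintype V] (τ : Equiv.Perm V) (x y : V) :
    cls τ x = cls τ y ↔ τ.SameCycle x y := by
  constructor
  · intro h
    rw [← mem_cls, h, mem_cls]
  · intro h
    ext z
    rw [mem_cls, mem_cls]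
    exact ⟨fun h' => h.symm.trans h', fun h' => h.trans h'⟩

theorem same_uv {V : Type} [Fintype V] (τ : Equiv.Perm V) (u v : V) (h : ¬ τ.SameCycle u v) :
    (τ * Equiv.swap u v).SameCycle u v := by
  have hex : ∃ k : ℕ, 0 < k ∧ (τ ^ k) v = v :=
    ⟨orderOf τ, orderOf_pos τ, by rw [pow_orderOf_eq_one]; rfl⟩
  obtain ⟨hk0, hk⟩ := Nat.find_spec hex
  set k := Nat.find hex with hkdef
  have key : ∀ i : ℕ, i < k → ((τ * Equiv.swap u v) ^ (i + 1)) u = (τ ^ (i + 1)) v := by
    intro i
    induction i with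
    | zero =>
      intro _
      rw [zero_add, pow_one, pow_one, Equiv.Perm.mul_apply, Equiv.swap_apply_left]
    | succ i ih =>
      intro hi
      rw [pow_succ' _ (i + 1), pow_succ' τ (i + 1), Equiv.Perm.mul_apply, ih (by omega),
        Equiv.Perm.mul_apply, Equiv.Perm.mul_apply, Equiv.swap_apply_of_ne_of_ne]
      · intro h'
        apply h
        exact Equiv.Perm.SameCycle.symm ⟨((i + 1 : ℕ) : ℤ), by rw [zpow_natCast]; exact h'⟩
      · intro h'
        exact Nat.find_min hex hi ⟨by omega, h'⟩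
  refine ⟨(k : ℤ), ?_⟩
  rw [zpow_natCast]
  obtain ⟨j, hj⟩ : ∃ j, k = j + 1 := ⟨k - 1, by omega⟩
  have h1 := key j (by omega)
  rw [← hj] at h1
  rw [h1, hk]

theorem same_iff {V : Type} [Fintype V] (τ : Equiv.Perm V) (u v : V) (h : ¬ τ.SameCycle u v)
    (x y : V) : (τ * Equiv.swap u v).SameCycle x y ↔ (τ.SameCycle x y ∨
    ((τ.SameCycle u x ∨ τ.SameCycle v x) ∧ (τ.SameCycle u y ∨ τ.SameCycle v y))) := by
  have huv := same_uv τ u v h
  have hstep : ∀ x, (τ * Equiv.swap u v).SameCycle x (τ x) := by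
    intro x
    by_cases hu : x = u
    · subst hu
      have h1 : (τ * Equiv.swap x v) v = τ x := by
        rw [Equiv.Perm.mul_apply, Equiv.swap_apply_right]
      rw [← h1]
      exact Equiv.Perm.sameCycle_apply_right.2 huv
    · by_cases hv : x = v
      · subst hv
        have h1 : (τ * Equiv.swap u x) u = τ x := by
          rw [Equiv.Perm.mul_apply, Equiv.swap_apply_left]
        rw [← h1]
        exact Equiv.Perm.sameCycle_apply_right.2 huv.symm
      · have h1 : (τ * Equiv.swap u v) x = τ x := by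
          rw [Equiv.Perm.mul_apply, Equiv.swap_apply_of_ne_of_ne hu hv]
        rw [← h1]
        exact Equiv.Perm.sameCycle_apply_right.2 (Equiv.Perm.SameCycle.refl _ _)
  have hsub : ∀ x y, τ.SameCycle x y → (τ * Equiv.swap u v).SameCycle x y :=
    same_of_step τ _ (fun x => Equiv.Perm.SameCycle.refl _ _) (fun _ _ _ h1 h2 => h1.trans h2) hstep
  constructor
  · intro hxy
    refine same_of_step (τ * Equiv.swap u v) (fun x y => τ.SameCycle x y ∨
      ((τ.SameCycle u x ∨ τ.SameCycle v x) ∧ (τ.SameCycle u y ∨ τ.SameCycle v y)))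
      (fun x => Or.inl (Equiv.Perm.SameCycle.refl _ _)) ?_ ?_ x y hxy
    · intro x y z h1 h2
      rcases h1 with h1 | ⟨h1, h1'⟩
      · rcases h2 with h2 | ⟨h2, h2'⟩
        · exact Or.inl (h1.trans h2)
        · refine Or.inr ⟨?_, h2'⟩
          rcases h2 with h2 | h2
          · exact Or.inl (h2.trans h1.symm)
          · exact Or.inr (h2.trans h1.symm)
      · rcases h2 with h2 | ⟨h2, h2'⟩
        · refine Or.inr ⟨h1, ?_⟩
          rcases h1' with h1' | h1'
          · exact Or.inl (h1'.trans h2)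
          · exact Or.inr (h1'.trans h2)
        · exact Or.inr ⟨h1, h2'⟩
    · intro x
      by_cases hu : x = u
      · subst hu
        rw [Equiv.Perm.mul_apply, Equiv.swap_apply_left]
        exact Or.inr ⟨Or.inl (Equiv.Perm.SameCycle.refl _ _),
          Or.inr (Equiv.Perm.sameCycle_apply_right.2 (Equiv.Perm.SameCycle.refl _ _))⟩
      · by_cases hv : x = v
        · subst hv
          rw [Equiv.Perm.mul_apply, Equiv.swap_apply_right]
          exact Or.inr ⟨Or.inr (Equiv.Perm.SameCycle.refl _ _),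
            Or.inl (Equiv.Perm.sameCycle_apply_right.2 (Equiv.Perm.SameCycle.refl _ _))⟩
        · rw [Equiv.Perm.mul_apply, Equiv.swap_apply_of_ne_of_ne hu hv]
          exact Or.inl (Equiv.Perm.sameCycle_apply_right.2 (Equiv.Perm.SameCycle.refl _ _))
  · rintro (h1 | ⟨h1, h2⟩)
    · exact hsub _ _ h1
    · have e1 : (τ * Equiv.swap u v).SameCycle u x := by
        rcases h1 with h1 | h1
        · exact hsub _ _ h1
        · exact huv.trans (hsub _ _ h1)
      have e2 : (τ * Equiv.swap u v).SameCycle u y := by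
        rcases h2 with h2 | h2
        · exact hsub _ _ h2
        · exact huv.trans (hsub _ _ h2)
      exact e1.symm.trans e2

theorem swm : S_SWM := by
  intro V _ τ u v h
  refine ⟨same_iff τ u v h, ?_⟩
  have hiff := same_iff τ u v h
  set σ := τ * Equiv.swap u v with hσ
  set A : V → Prop := fun x => τ.SameCycle u x ∨ τ.SameCycle v x with hA
  set I : Finset (Finset V) := (Finset.univ.filter (fun x => ¬ A x)).image (cls τ) with hI
  have hclsA : ∀ x, A x → cls σ x = cls σ u := by
    intro x hx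
    rw [cls_eq_iff, hiff]
    exact Or.inr ⟨hx, Or.inl (Equiv.Perm.SameCycle.refl _ _)⟩
  have hclsN : ∀ x, ¬ A x → cls σ x = cls τ x := by
    intro x hx
    ext y
    rw [mem_cls, mem_cls, hiff]
    constructor
    · rintro (h1 | ⟨h1, _⟩)
      · exact h1
      · exact absurd h1 hx
    · intro h1
      exact Or.inl h1
  have hAu : A u := Or.inl (Equiv.Perm.SameCycle.refl _ _)
  have hAv : A v := Or.inr (Equiv.Perm.SameCycle.refl _ _)
  have e1 : Finset.univ.image (cls τ) = insert (cls τ u) (insert (cls τ v) I) := by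
    ext S
    rw [Finset.mem_image, Finset.mem_insert, Finset.mem_insert, hI, Finset.mem_image]
    constructor
    · rintro ⟨x, _, rfl⟩
      by_cases hx : A x
      · rcases hx with hx | hx
        · exact Or.inl ((cls_eq_iff τ _ _).2 hx.symm)
        · exact Or.inr (Or.inl ((cls_eq_iff τ _ _).2 hx.symm))
      · exact Or.inr (Or.inr ⟨x, Finset.mem_filter.2 ⟨Finset.mem_univ _, hx⟩, rfl⟩)
    · rintro (h1 | h1 | ⟨x, _, h1⟩)
      · exact ⟨u, Finset.mem_univ _, h1.symm⟩
      · exact ⟨v, Finset.mem_univ _, h1.symm⟩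
      · exact ⟨x, Finset.mem_univ _, h1⟩
  have e2 : Finset.univ.image (cls σ) = insert (cls σ u) I := by
    ext S
    rw [Finset.mem_image, Finset.mem_insert, hI, Finset.mem_image]
    constructor
    · rintro ⟨x, _, rfl⟩
      by_cases hx : A x
      · exact Or.inl (hclsA x hx)
      · exact Or.inr ⟨x, Finset.mem_filter.2 ⟨Finset.mem_univ _, hx⟩, (hclsN x hx).symm⟩
    · rintro (h1 | ⟨x, hx, h1⟩)
      · exact ⟨u, Finset.mem_univ _, h1.symm⟩
      · rw [Finset.mem_filter] at hx
        exact ⟨x, Finset.mem_univ _, (hclsN x hx.2).trans h1⟩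
  have n1 : cls τ v ∉ I := by
    rw [hI, Finset.mem_image]
    rintro ⟨x, hx, h1⟩
    rw [Finset.mem_filter] at hx
    exact hx.2 (Or.inr ((cls_eq_iff τ _ _).1 h1).symm)
  have n2 : cls τ u ∉ insert (cls τ v) I := by
    rw [Finset.mem_insert, hI, Finset.mem_image]
    rintro (h1 | ⟨x, hx, h1⟩)
    · exact h ((cls_eq_iff τ _ _).1 h1)
    · rw [Finset.mem_filter] at hx
      exact hx.2 (Or.inl ((cls_eq_iff τ _ _).1 h1).symm)
  have n3 : cls σ u ∉ I := by
    rw [hI, Finset.mem_image]
    rintro ⟨x, hx, h1⟩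
    rw [Finset.mem_filter] at hx
    have h2 : x ∈ cls σ u := by
      rw [← h1, mem_cls]
    rw [mem_cls, hiff] at h2
    rcases h2 with h2 | ⟨_, h2⟩
    · exact hx.2 (Or.inl h2)
    · exact hx.2 h2
  unfold nc
  rw [e1, e2, Finset.card_insert_of_notMem n3, Finset.card_insert_of_notMem n2,
    Finset.card_insert_of_notMem n1]

end Pool.Agent.W803.DH
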